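import Pool.Agent.Q120.PD.Stm

/-! Lemmas for the jobs of project PD. -/

set_option autoImplicit false

namespace Pool.Agent.Q190.PD

open Finset Filter Pool.Agent.Q120.MG Pool.Agent.Q120.GM Pool.Agent.Q120.CL Pool.Agent.Q120.HL
  Pool.Agent.Q120.PD
open scoped Topology

theorem card_pair' {d : ℕ} (hd : d ≠ 0) : ({0, d} : Finset ℕ).card = 2 :=
  card_pair (Ne.symm hd)

theorem nu_div {d p : ℕ} (h : p ∣ d) : nu {0, d} p = 1 := by
  unfold nu
  rw [image_insert, image_singleton, Nat.zero_mod, Nat.mod_eq_zero_of_dvd h]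
  simp

theorem nu_ndiv {d p : ℕ} (h : ¬ p ∣ d) : nu {0, d} p = 2 := by
  unfold nu
  rw [image_insert, image_singleton, Nat.zero_mod]
  apply card_pair
  intro h2
  exact h (Nat.dvd_of_mod_eq_zero h2.symm)

theorem loc_div {d p : ℕ} (hd : d ≠ 0) (hp : p.Prime) (h : p ∣ d) :
    loc {0, d} p = 1 / (1 - 1 / (p : ℝ)) := by
  obtain ⟨t0, t1⟩ := inv_prime hp
  unfold loc
  rw [nu_div h, card_pair' hd]
  have h2 : (1 : ℝ) - 1 / p ≠ 0 := by linarith
  push_cast
  rw [sq]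
  field_simp

theorem loc_ndiv {d p : ℕ} (hd : d ≠ 0) (h : ¬ p ∣ d) :
    loc {0, d} p = (1 - 2 / (p : ℝ)) / (1 - 1 / (p : ℝ)) ^ 2 := by
  unfold loc
  rw [nu_ndiv h, card_pair' hd]
  norm_num

/-- number of the large prime divisors -/
theorem card_big {d z : ℕ} (hd : d ≠ 0) (hz : 2 ≤ z) (T : Finset ℕ)
    (hT : ∀ p ∈ T, p.Prime ∧ z ≤ p ∧ p ∣ d) : (T.card : ℝ) ≤ Real.log d / Real.log z := by
  have h1 : ∏ p ∈ T, p ∣ d := by
    refine Finset.prod_primes_dvd d (fun p hp => ((hT p hp).1).prime) (fun p hp => (hT p hp).2.2)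
  have h2 : z ^ T.card ≤ d := by
    calc z ^ T.card = ∏ p ∈ T, z := by rw [prod_const]
      _ ≤ ∏ p ∈ T, p := prod_le_prod' (fun p hp => (hT p hp).2.1)
      _ ≤ d := Nat.le_of_dvd (Nat.pos_of_ne_zero hd) h1
  have hz1 : (1 : ℝ) < z := by exact_mod_cast hz
  have hlz : 0 < Real.log z := Real.log_pos hz1
  rw [le_div_iff₀ hlz, ← Real.log_pow]
  apply Real.log_le_log (by positivity)
  exact_mod_cast h2

theorem tail_two {d z w : ℕ} (hd : d ≠ 0) (hz : 3 ≤ z) (hw : z ≤ w) :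
    (1 - Real.log d / (z * Real.log z)) * Sz {0, d} w ≤ Sz {0, d} z := by
  classical
  have hz1 : (1 : ℝ) < z := by exact_mod_cast (by omega : 1 < z)
  have hlz : 0 < Real.log z := Real.log_pos hz1
  have hz0 : (0 : ℝ) < z := by linarith
  set T := ((Ico z w).filter Nat.Prime).filter (fun p => p ∣ d) with hT
  have hTc : (T.card : ℝ) ≤ Real.log d / Real.log z := by
    refine card_big hd (by omega) T (fun p hp => ?_)
    rw [hT, mem_filter, mem_filter, mem_Ico] at hp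
    exact ⟨hp.1.2, hp.1.1.1, hp.2⟩
  have h1z : (0 : ℝ) < 1 - 1 / z := by
    have : (1 : ℝ) / z < 1 := by rw [div_lt_one hz0]; exact hz1
    linarith
  have hprod : ∏ p ∈ (Ico z w).filter Nat.Prime, loc {0, d} p ≤ (1 / (1 - 1 / (z : ℝ))) ^ T.card := by
    rw [← prod_filter_mul_prod_filter_not ((Ico z w).filter Nat.Prime) (fun p => p ∣ d), ← hT]
    have a1 : ∏ p ∈ T, loc {0, d} p ≤ (1 / (1 - 1 / (z : ℝ))) ^ T.card := by
      rw [← prod_const]
      refine prod_le_prod (fun p hp => ?_) (fun p hp => ?_)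
      · rw [hT, mem_filter, mem_filter, mem_Ico] at hp
        exact loc_nonneg _ hp.1.2
      · rw [hT, mem_filter, mem_filter, mem_Ico] at hp
        rw [loc_div hd hp.1.2 hp.2]
        have hzp : (z : ℝ) ≤ p := by exact_mod_cast hp.1.1.1
        apply one_div_le_one_div_of_le h1z
        have := one_div_le_one_div_of_le hz0 hzp
        linarith
    have a2 : ∏ p ∈ ((Ico z w).filter Nat.Prime).filter (fun p => ¬ p ∣ d), loc {0, d} p ≤ 1 := by
      refine prod_le_one (fun p hp => ?_) (fun p hp => ?_)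
      · rw [mem_filter, mem_filter, mem_Ico] at hp
        exact loc_nonneg _ hp.1.2
      · rw [mem_filter, mem_filter, mem_Ico] at hp
        exact loc_le_one hp.1.2 (by rw [nu_ndiv hp.2, card_pair' hd])
    calc _ ≤ (1 / (1 - 1 / (z : ℝ))) ^ T.card * 1 := by
          refine mul_le_mul a1 a2 (prod_nonneg (fun p hp => ?_)) (by positivity)
          rw [mem_filter, mem_filter, mem_Ico] at hp
          exact loc_nonneg _ hp.1.2
      _ = _ := mul_one _
  have h2 : (1 - 1 / (z : ℝ)) ^ T.card * Sz {0, d} w ≤ Sz {0, d} z := by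
    rw [Sz_split _ hw]
    calc (1 - 1 / (z : ℝ)) ^ T.card * (Sz {0, d} z * ∏ p ∈ (Ico z w).filter Nat.Prime, loc {0, d} p)
        ≤ (1 - 1 / (z : ℝ)) ^ T.card * (Sz {0, d} z * (1 / (1 - 1 / (z : ℝ))) ^ T.card) := by
          have := Sz_nonneg {0, d} z
          gcongr
      _ = Sz {0, d} z := by
          rw [one_div_pow (1 - 1 / (z : ℝ))]
          have hne : (1 - 1 / (z : ℝ)) ^ T.card ≠ 0 := pow_ne_zero _ h1z.ne'
          generalize (1 - 1 / (z : ℝ)) ^ T.card = q at hne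
          field_simp
  refine le_trans (mul_le_mul_of_nonneg_right ?_ (Sz_nonneg _ _)) h2
  have h3 : 1 + (T.card : ℝ) * (-(1 / (z : ℝ))) ≤ (1 + (-(1 / (z : ℝ)))) ^ T.card :=
    one_add_mul_le_pow (by linarith) _
  have h4 : (T.card : ℝ) * (1 / z) ≤ Real.log d / (z * Real.log z) := by
    calc (T.card : ℝ) * (1 / z) ≤ Real.log d / Real.log z * (1 / z) := by gcongr
      _ = _ := by field_simp
  have h5 : (1 : ℝ) + -(1 / (z : ℝ)) = 1 - 1 / z := by ring
  rw [h5] at h3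
  linarith

theorem t_RAT : J_RAT := by
  intro d z _ hd hz
  have hd0 : d ≠ 0 := by omega
  have hz16 : (16 : ℝ) ≤ z := by exact_mod_cast hz
  have hz0 : (0 : ℝ) < z := by linarith
  constructor
  · have h1 : Tendsto (fun w => (1 - Real.log d / (z * Real.log z)) * Sz {0, d} w) atTop
        (𝓝 ((1 - Real.log d / (z * Real.log z)) * SS {0, d})) := (Sz_tendsto _).const_mul _
    refine le_of_tendsto h1 ?_
    filter_upwards [eventually_ge_atTop z] with w hw
    exact tail_two hd0 (by omega) hw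
  · have h1 := SS_lower (D := {0, d}) (z := z) (by rw [card_pair' hd0]; omega) (by omega)
    rw [card_pair' hd0] at h1
    have h2 := Sz_nonneg {0, d} z
    have h3 : 0 < 1 + 16 / (z : ℝ) := by positivity
    have h4 := mul_le_mul_of_nonneg_left h1 h3.le
    have h5 : 1 ≤ (1 + 16 / (z : ℝ)) * (1 - 2 * ((2 : ℕ) : ℝ) ^ 2 / z) := by
      have e : (1 + 16 / (z : ℝ)) * (1 - 2 * ((2 : ℕ) : ℝ) ^ 2 / z) =
          1 + 8 * (z - 16) / z ^ 2 := by
        field_simp
        push_cast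
        ring
      rw [e]
      have : 0 ≤ 8 * ((z : ℝ) - 16) / z ^ 2 := by
        apply div_nonneg <;> nlinarith
      linarith
    calc Sz {0, d} z = 1 * Sz {0, d} z := (one_mul _).symm
      _ ≤ (1 + 16 / (z : ℝ)) * (1 - 2 * ((2 : ℕ) : ℝ) ^ 2 / z) * Sz {0, d} z :=
        mul_le_mul_of_nonneg_right h5 h2
      _ = (1 + 16 / (z : ℝ)) * ((1 - 2 * ((2 : ℕ) : ℝ) ^ 2 / z) * Sz {0, d} z) := by ring
      _ ≤ _ := h4

/-- a factor at an odd prime -/
theorem loc_odd {d p : ℕ} (hd : d ≠ 0) (hp : p.Prime) (h2 : 2 < p) :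
    loc {0, d} p = (1 - 1 / (((p : ℕ) : ℝ) - 1) ^ 2) *
      (if p ∣ d then (((p : ℝ) - 1) / ((p : ℝ) - 2)) else 1) := by
  have h3 : (3 : ℝ) ≤ p := by exact_mod_cast h2
  have n1 : (p : ℝ) ≠ 0 := by linarith
  have n2 : (p : ℝ) - 1 ≠ 0 := by linarith
  have n3 : (p : ℝ) - 2 ≠ 0 := by linarith
  have n4 : (1 : ℝ) - 1 / p ≠ 0 := by
    have : (1 : ℝ) - 1 / p = (p - 1) / p := by field_simp
    rw [this]
    exact div_ne_zero n2 n1
  by_cases h : p ∣ d
  · rw [loc_div hd hp h, if_pos h]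
    have e1 : (1 : ℝ) - 1 / p = (p - 1) / p := by field_simp
    rw [e1]
    field_simp
    ring
  · rw [loc_ndiv hd h, if_neg h, mul_one]
    have e1 : (1 : ℝ) - 1 / p = (p - 1) / p := by field_simp
    rw [e1]
    field_simp
    ring

theorem mult_odd : Multipliable (fun p : {p : ℕ // p.Prime ∧ 2 < p} =>
    (1 - 1 / (((p.1 : ℕ) : ℝ) - 1) ^ 2)) := by
  have h1 : Summable (fun p : {p : ℕ // p.Prime ∧ 2 < p} =>
      -(1 / (((p.1 : ℕ) : ℝ) - 1) ^ 2)) := by
    have h2 : Summable (fun n : ℕ => 4 * (1 / ((n : ℝ)) ^ 2)) :=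
      (Real.summable_one_div_nat_pow.2 (by norm_num)).mul_left 4
    have h3 : Summable (fun p : {p : ℕ // p.Prime ∧ 2 < p} =>
        4 * (1 / ((p.1 : ℕ) : ℝ) ^ 2)) := h2.comp_injective Subtype.val_injective
    refine Summable.of_norm_bounded h3 (fun p => ?_)
    have h4 : (3 : ℝ) ≤ (p.1 : ℕ) := by exact_mod_cast p.2.2
    rw [norm_neg, Real.norm_of_nonneg (by positivity)]
    rw [div_le_iff₀ (by nlinarith), mul_one_div, div_mul_eq_mul_div, le_div_iff₀ (by positivity)]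
    nlinarith
  have h4 := Real.multipliable_one_add_of_summable h1
  exact h4.congr (fun p => by ring)

theorem Sz_even {d z : ℕ} (hd : d ≠ 0) (he : 2 ∣ d) (hz : d < z) (hz3 : 3 ≤ z) :
    Sz {0, d} z = 2 * (∏ p ∈ (range z).filter (fun p => p.Prime ∧ 2 < p),
      (1 - 1 / (((p : ℕ) : ℝ) - 1) ^ 2)) *
      ∏ p ∈ d.primeFactors.filter (fun p : ℕ => 2 < p), (((p : ℝ) - 1) / ((p : ℝ) - 2)) := by
  unfold Sz
  have h2 : 2 ∈ (range z).filter Nat.Prime := mem_filter.2 ⟨mem_range.2 (by omega), Nat.prime_two⟩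
  rw [← mul_prod_erase _ _ h2]
  have e1 : ((range z).filter Nat.Prime).erase 2 = (range z).filter (fun p => p.Prime ∧ 2 < p) := by
    ext p
    simp only [mem_erase, mem_filter, mem_range]
    constructor
    · rintro ⟨h1, h2, h3⟩
      exact ⟨h2, h3, lt_of_le_of_ne h3.two_le (Ne.symm h1)⟩
    · rintro ⟨h1, h2, h3⟩
      exact ⟨h3.ne', h1, h2⟩
  have e2 : loc {0, d} 2 = 2 := by
    rw [loc_div hd Nat.prime_two he]
    norm_num
  rw [e1, e2, mul_assoc]
  congr 1
  rw [prod_congr rfl (fun p hp => loc_odd hd (mem_filter.1 hp).2.1 (mem_filter.1 hp).2.2),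
    prod_mul_distrib]
  congr 1
  have e3 : d.primeFactors.filter (fun p : ℕ => 2 < p) =
      ((range z).filter (fun p => p.Prime ∧ 2 < p)).filter (fun p => p ∣ d) := by
    ext p
    simp only [mem_filter, Nat.mem_primeFactors, mem_range]
    constructor
    · rintro ⟨⟨h1, h2, h3⟩, h4⟩
      exact ⟨⟨lt_of_le_of_lt (Nat.le_of_dvd (Nat.pos_of_ne_zero hd) h2) hz, h1, h4⟩, h2⟩
    · rintro ⟨⟨h1, h2, h3⟩, h4⟩
      exact ⟨⟨h2, h4, hd⟩, h3⟩
  rw [e3]
  exact (prod_filter (fun p => p ∣ d) _).symm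

theorem t_SID : J_SID := by
  intro d he hd
  have hd0 : d ≠ 0 := by omega
  have h2d : 2 ∣ d := he.two_dvd
  have h1 := mult_odd.hasProd
  obtain ⟨s, hs⟩ : ∃ s : ℕ → Finset {p : ℕ // p.Prime ∧ 2 < p},
    s = fun z => (range z).subtype (fun p => p.Prime ∧ 2 < p) := ⟨_, rfl⟩
  have h2 : Tendsto s atTop atTop := by
    refine tendsto_atTop_finset_of_monotone ?_ ?_
    · intro a b hab p hp
      rw [hs] at hp ⊢
      have h3 := mem_range.1 (Finset.mem_subtype.1 hp)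
      exact Finset.mem_subtype.2 (mem_range.2 (by omega))
    · intro p
      refine ⟨(p : ℕ) + 1, ?_⟩
      rw [hs]
      exact Finset.mem_subtype.2 (mem_range.2 (Nat.lt_succ_self _))
  have h3 : Tendsto (fun z => ∏ p ∈ s z, (1 - 1 / (((p.1 : ℕ) : ℝ) - 1) ^ 2)) atTop
      (𝓝 (∏' p : {p : ℕ // p.Prime ∧ 2 < p}, (1 - 1 / (((p.1 : ℕ) : ℝ) - 1) ^ 2))) := h1.comp h2
  have h4 : Tendsto (fun z => 2 * (∏ p ∈ s z, (1 - 1 / (((p.1 : ℕ) : ℝ) - 1) ^ 2)) *
      ∏ p ∈ d.primeFactors.filter (fun p : ℕ => 2 < p), (((p : ℝ) - 1) / ((p : ℝ) - 2))) atTop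
      (𝓝 (MT d)) := (h3.const_mul 2).mul_const _
  have h5 : SS {0, d} = MT d := by
    refine tendsto_nhds_unique (Sz_tendsto {0, d}) (h4.congr' ?_)
    filter_upwards [eventually_ge_atTop (d + 3)] with z hz
    rw [Sz_even hd0 h2d (by omega) (by omega), hs]
    congr 2
    exact prod_subtype_eq_prod_filter (fun p : ℕ => (1 - 1 / ((p : ℝ) - 1) ^ 2))
  refine ⟨h5, ?_⟩
  rw [← h5]
  have h6 := SS_lower (D := {0, d}) (z := 16) (by rw [card_pair' hd0]; omega) (by omega)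
  rw [card_pair' hd0] at h6
  refine lt_of_lt_of_le (mul_pos (by norm_num) ?_) h6
  unfold Sz
  refine prod_pos (fun p hp => ?_)
  have hpp := (mem_filter.1 hp).2
  rcases eq_or_lt_of_le hpp.two_le with h7 | h7
  · rw [← h7, loc_div hd0 Nat.prime_two h2d]
    norm_num
  · rw [loc_odd hd0 hpp h7]
    have h8 : (3 : ℝ) ≤ p := by exact_mod_cast h7
    apply mul_pos
    · have : 1 / ((p : ℝ) - 1) ^ 2 < 1 := by
        rw [div_lt_one (by nlinarith)]; nlinarith
      linarith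
    · split_ifs
      · apply div_pos <;> linarith
      · norm_num

end Pool.Agent.Q190.PD
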