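import Pool.Agent.Q190.PD.CHO1

/-! The job CHO of project PD. -/

set_option autoImplicit false

namespace Pool.Agent.Q190.PD

open Finset Filter Pool.Agent.Q120.MG Pool.Agent.Q120.GM Pool.Agent.Q120.CL Pool.Agent.Q120.HL
  Pool.Agent.Q120.PD
open scoped Topology

theorem log_small {a : ℝ} (ha : 0 < a) (A D : ℝ) : ∀ᶠ L : ℝ in atTop, A + D * Real.log L ≤ L ^ a := by
  have h1 := (isLittleO_log_rpow_atTop ha).bound (show (0 : ℝ) < 1 / (2 * (|D| + 1)) by positivity)
  have h2 := (tendsto_rpow_atTop ha).eventually_ge_atTop (2 * A)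
  filter_upwards [h1, h2, eventually_ge_atTop 1] with L e1 e2 e3
  have e4 : 0 ≤ Real.log L := Real.log_nonneg e3
  have e5 : 0 ≤ L ^ a := by positivity
  rw [Real.norm_of_nonneg e4, Real.norm_of_nonneg e5] at e1
  have e6 : D * Real.log L ≤ (|D| + 1) * Real.log L :=
    mul_le_mul_of_nonneg_right (by linarith [le_abs_self D]) e4
  have e7 : (|D| + 1) * Real.log L ≤ (|D| + 1) * (1 / (2 * (|D| + 1)) * L ^ a) :=
    mul_le_mul_of_nonneg_left e1 (by positivity)
  have e8 : (|D| + 1) * (1 / (2 * (|D| + 1)) * L ^ a) = L ^ a / 2 := by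
    have : |D| + 1 ≠ 0 := by positivity
    field_simp
  linarith

theorem t_CHO : J_CHO := by
  intro a B M ha hB hM
  refine ⟨B / (672 * (M + 1)), by positivity, ?_⟩
  obtain ⟨w0, hw0⟩ := eventually_atTop.1 cheb
  have f1 : ∀ᶠ L : ℝ in atTop, (w0 : ℝ) ≤ B / 12 * L ∧ 21 ≤ B / 12 * L := by
    have h1 : Tendsto (fun L : ℝ => B / 12 * L) atTop atTop := tendsto_id.const_mul_atTop (by positivity)
    filter_upwards [h1.eventually_ge_atTop (w0 : ℝ), h1.eventually_ge_atTop 21] with L e1 e2
    exact ⟨e1, e2⟩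
  have f2 := log_small ha (B / 6 * Real.log (B / 6)) (B / 6)
  have f3 := log_small one_pos (5600 / B * Real.log (M + 1)) (5600 / B * (1 + a))
  filter_upwards [log_tend.eventually f1, log_tend.eventually f2, log_tend.eventually f3,
    log_tend.eventually_ge_atTop 6, eventually_ge_atTop 2] with k g1 g2 g3 g4 hk2 z hz
  obtain ⟨L, hL⟩ : ∃ L : ℝ, L = Real.log k := ⟨_, rfl⟩
  rw [← hL] at g1 g2 g3 g4 hz ⊢
  have hL0 : 0 < L := by linarith
  obtain ⟨y, hy⟩ : ∃ y : ℕ, y = ⌊B / 6 * L⌋₊ := ⟨_, rfl⟩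
  have hy1 : (y : ℝ) ≤ B / 6 * L := by rw [hy]; exact Nat.floor_le (by positivity)
  have hy2 : B / 12 * L ≤ y := by
    have := Nat.lt_floor_add_one (B / 6 * L)
    rw [← hy] at this
    linarith
  have hy3 : 21 ≤ y := by
    have : (21 : ℝ) ≤ y := by linarith
    exact_mod_cast this
  obtain ⟨w, hw⟩ : ∃ w : ℕ, w = max z y := ⟨_, rfl⟩
  have hyw : y ≤ w := by rw [hw]; exact le_max_right _ _
  have hyw' : (y : ℝ) ≤ w := by exact_mod_cast hyw
  have hww0 : w0 ≤ w := by
    have : (w0 : ℝ) ≤ w := by linarith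
    exact_mod_cast this
  have hw21 : (21 : ℝ) ≤ w := by exact_mod_cast (by omega : 21 ≤ w)
  have hwp : (0 : ℝ) < w := by linarith
  have hlw : 1 ≤ Real.log w := by
    rw [Real.le_log_iff_exp_le hwp]
    have := Real.exp_one_lt_d9
    linarith
  have hLa : 0 < L ^ (1 + a) := by positivity
  have hwl : (w : ℝ) * Real.log w ≤ (M + 1) * L ^ (1 + a) := by
    rcases le_total z y with h | h
    · have e1 : w = y := by rw [hw, max_eq_right h]
      have hy0 : (0 : ℝ) < y := by rw [← e1]; exact hwp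
      rw [e1]
      have e2 : Real.log y ≤ Real.log (B / 6 * L) := Real.log_le_log hy0 hy1
      rw [Real.log_mul (by positivity) hL0.ne'] at e2
      have e3 : (y : ℝ) * Real.log y ≤ (B / 6 * L) * Real.log y := by
        apply mul_le_mul_of_nonneg_right hy1
        rw [← e1]; linarith
      have e4 : (B / 6 * L) * Real.log y ≤ (B / 6 * L) * (Real.log (B / 6) + Real.log L) :=
        mul_le_mul_of_nonneg_left e2 (by positivity)
      have e5 : (B / 6 * L) * (Real.log (B / 6) + Real.log L) =
          L * (B / 6 * Real.log (B / 6) + B / 6 * Real.log L) := by ring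
      have e6 : L * (B / 6 * Real.log (B / 6) + B / 6 * Real.log L) ≤ L * L ^ a :=
        mul_le_mul_of_nonneg_left g2 hL0.le
      have e7 : L * L ^ a = L ^ (1 + a) := by
        rw [Real.rpow_add hL0, Real.rpow_one]
      have e8 : 0 ≤ M * L ^ (1 + a) := by positivity
      linarith
    · have e1 : w = z := by rw [hw, max_eq_left h]
      rw [e1]
      linarith
  have hlw2 : Real.log w ≤ Real.log (M + 1) + (1 + a) * Real.log L := by
    have e1 : (w : ℝ) ≤ (M + 1) * L ^ (1 + a) := by
      refine le_trans ?_ hwl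
      exact le_mul_of_one_le_right hwp.le hlw
    have e2 := Real.log_le_log hwp e1
    rwa [Real.log_mul (by positivity) hLa.ne', Real.log_rpow hL0] at e2
  have hl21 : Real.log (21 * w) ≤ 2 * Real.log w := by
    rw [Real.log_mul (by norm_num) hwp.ne']
    have := Real.log_le_log (by norm_num) hw21
    linarith
  have hl0 : 0 < Real.log (21 * w) := Real.log_pos (by linarith)
  obtain ⟨X, hX⟩ : ∃ X : ℝ, X = B / 2 * L / Real.log (21 * w) := ⟨_, rfl⟩
  have hX1 : X * Real.log (21 * w) = B / 2 * L := by rw [hX]; field_simp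
  have hX2 : 1400 ≤ X := by
    rw [hX, le_div_iff₀ hl0]
    rw [Real.rpow_one] at g3
    have e1 : 5600 / B * Real.log (M + 1) + 5600 / B * (1 + a) * Real.log L =
        5600 / B * (Real.log (M + 1) + (1 + a) * Real.log L) := by ring
    rw [e1] at g3
    have e2 : 5600 / B * Real.log w ≤ L := le_trans (mul_le_mul_of_nonneg_left hlw2 (by positivity)) g3
    have e3 : B * (5600 / B * Real.log w) ≤ B * L := mul_le_mul_of_nonneg_left e2 hB.le
    have e4 : B * (5600 / B * Real.log w) = 5600 * Real.log w := by field_simp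
    linarith
  obtain ⟨m, hm⟩ : ∃ m : ℕ, m = ⌊X⌋₊ := ⟨_, rfl⟩
  have hm1 : (m : ℝ) ≤ X := by rw [hm]; exact Nat.floor_le (by linarith)
  have hm2 : X / 2 ≤ m := by
    have := Nat.lt_floor_add_one X
    rw [← hm] at this
    linarith
  have hm3 : 672 ≤ m := by
    have : (672 : ℝ) ≤ m := by linarith
    exact_mod_cast this
  obtain ⟨d, d1, d2, d3, d4⟩ := pick (B := B) (L := L) (m := m) hw (by omega) (by omega) hy1 hy2 (hw0 w hww0)
    (by rw [← hX1]; exact mul_le_mul_of_nonneg_right hm1 hl0.le) hm3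
  refine ⟨d, d1, d2, ?_, ?_⟩
  · have hk0 : (2 : ℝ) ≤ k := by exact_mod_cast hk2
    have hd0 : (0 : ℝ) < d := by exact_mod_cast (by omega : 0 < d)
    have e1 : (0 : ℝ) < ((k : ℝ) - 1) / 2 := by linarith
    rw [← Real.log_le_log_iff hd0 (by positivity), Real.log_rpow e1]
    have e2 : (k : ℝ) / 4 ≤ ((k : ℝ) - 1) / 2 := by linarith
    have e3 := Real.log_le_log (by positivity) e2
    rw [Real.log_div (by positivity) (by norm_num), ← hL] at e3
    have e6 : Real.log 4 ≤ 3 / 2 := by
      rw [show (4 : ℝ) = 2 ^ 2 by norm_num, Real.log_pow]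
      have := Real.log_two_lt_d9
      push_cast
      linarith
    have e7 : 3 / 4 * L ≤ Real.log (((k : ℝ) - 1) / 2) := by linarith
    have e8 := mul_le_mul_of_nonneg_left e7 hB.le
    linarith
  · refine le_trans d4 (mul_le_mul_of_nonneg_right ?_ (SS_nonneg _))
    have hLa' : 0 < L ^ a := by positivity
    have e1 : B / (672 * (M + 1)) / L ^ a ≤ m / (84 * w) := by
      have e2 : B / 8 * L ≤ m * Real.log w := by
        have e3 : X / 2 * Real.log (21 * w) = B / 4 * L := by linarith
        have e4 : X / 2 * Real.log (21 * w) ≤ m * Real.log (21 * w) :=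
          mul_le_mul_of_nonneg_right hm2 hl0.le
        have e5 : (m : ℝ) * Real.log (21 * w) ≤ m * (2 * Real.log w) :=
          mul_le_mul_of_nonneg_left hl21 (Nat.cast_nonneg _)
        linarith
      rw [div_div, div_le_div_iff₀ (by positivity) (by positivity)]
      have e7 : L ^ (1 + a) = L * L ^ a := by rw [Real.rpow_add hL0, Real.rpow_one]
      rw [e7] at hwl
      have e8 : B / 8 * L * w ≤ m * Real.log w * w := mul_le_mul_of_nonneg_right e2 hwp.le
      have e9 : (m : ℝ) * (w * Real.log w) ≤ m * ((M + 1) * (L * L ^ a)) :=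
        mul_le_mul_of_nonneg_left hwl (Nat.cast_nonneg _)
      have e10 : L * (B / 8 * w) ≤ L * (m * ((M + 1) * L ^ a)) := by
        calc L * (B / 8 * w) = B / 8 * L * w := by ring
          _ ≤ m * Real.log w * w := e8
          _ = m * (w * Real.log w) := by ring
          _ ≤ m * ((M + 1) * (L * L ^ a)) := e9
          _ = _ := by ring
      have e11 := le_of_mul_le_mul_left e10 hL0
      linarith
    linarith

end Pool.Agent.Q190.PD
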