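import Pool.Agent.Q190.PD.Base

/-! Lemmas for the job CHO of project PD. -/

set_option autoImplicit false

namespace Pool.Agent.Q190.PD

open Finset Filter Pool.Agent.Q120.MG Pool.Agent.Q120.GM Pool.Agent.Q120.CL Pool.Agent.Q120.HL
  Pool.Agent.Q120.PD
open scoped Topology

/-- Chebyshev -/
theorem cheb : ∀ᶠ w : ℕ in atTop, 6 * (w : ℝ) ≤
    (((Ico w (21 * w)).filter Nat.Prime).card : ℝ) * Real.log (21 * w) := by
  have h1 : ∀ᶠ x : ℕ in atTop, Real.log ((x : ℝ) + 1) + 2 * √x * Real.log x ≤ x / 100 := by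
    have g1 := ev_power 400 1 (show (0 : ℝ) < 1 / 2 by norm_num)
    filter_upwards [g1, log_tend.eventually_ge_atTop 1, eventually_ge_atTop 1] with x e1 e2 hx1
    have hx0 : (1 : ℝ) ≤ x := by exact_mod_cast hx1
    rw [pow_one, ← Real.sqrt_eq_rpow] at e1
    have e3 : √(x : ℝ) * √x = x := Real.mul_self_sqrt (by linarith)
    have e4 : 0 ≤ √(x : ℝ) := Real.sqrt_nonneg _
    have e5 : 1 ≤ √(x : ℝ) := by
      rw [Real.one_le_sqrt]
      exact hx0
    have e6 : Real.log ((x : ℝ) + 1) ≤ 2 * Real.log x := by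
      have : Real.log ((x : ℝ) + 1) ≤ Real.log (x * 2) := Real.log_le_log (by linarith) (by linarith)
      rw [Real.log_mul (by linarith) (by norm_num)] at this
      have := Real.log_two_lt_d9
      linarith
    nlinarith
  have ht : Tendsto (fun w : ℕ => 20 * w) atTop atTop :=
    tendsto_id.const_mul_atTop' (by norm_num)
  filter_upwards [ht.eventually h1, eventually_ge_atTop 1] with w h2 hw
  have h3 := Chebyshev.theta_ge (20 * w)
  have h4 := Chebyshev.theta_le_log4_mul_x (x := ((w : ℕ) : ℝ)) (by positivity)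
  rw [Chebyshev.theta_eq_sum_primesLE_log] at h3 h4
  have hw0 : (1 : ℝ) ≤ w := by exact_mod_cast hw
  have h5 : ∑ p ∈ Nat.primesLE (20 * w), Real.log p ≤
      (∑ p ∈ Nat.primesLE w, Real.log p) + ∑ p ∈ (Ico w (21 * w)).filter Nat.Prime, Real.log p := by
    have e1 : Nat.primesLE (20 * w) ⊆ Nat.primesLE w ∪ (Ico w (21 * w)).filter Nat.Prime := by
      intro p hp
      rw [Nat.primesLE_eq_filter_range, mem_filter, mem_range] at hp
      rw [mem_union, Nat.primesLE_eq_filter_range, mem_filter, mem_range, mem_filter, mem_Ico]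
      by_cases h6 : p ≤ w
      · exact Or.inl ⟨by omega, hp.2⟩
      · exact Or.inr ⟨by omega, hp.2⟩
    have e3 : ∀ p : ℕ, 0 ≤ Real.log (p : ℝ) := fun p => Real.log_natCast_nonneg p
    refine (sum_le_sum_of_subset_of_nonneg e1 (fun p _ _ => e3 p)).trans ?_
    have h6 := sum_union_inter (s₁ := Nat.primesLE w) (s₂ := (Ico w (21 * w)).filter Nat.Prime)
      (f := fun p : ℕ => Real.log (p : ℝ))
    have h7 : 0 ≤ ∑ p ∈ Nat.primesLE w ∩ (Ico w (21 * w)).filter Nat.Prime, Real.log (p : ℝ) :=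
      sum_nonneg (fun p _ => e3 p)
    linarith
  have h6 : ∑ p ∈ (Ico w (21 * w)).filter Nat.Prime, Real.log (p : ℝ) ≤
      (((Ico w (21 * w)).filter Nat.Prime).card : ℝ) * Real.log (21 * w) := by
    rw [← nsmul_eq_mul]
    refine Finset.sum_le_card_nsmul _ _ _ (fun p hp => ?_)
    rw [mem_filter, mem_Ico] at hp
    have hp0 : (0 : ℝ) < p := by exact_mod_cast hp.2.pos
    refine Real.log_le_log hp0 ?_
    exact_mod_cast hp.1.2.le
  refine le_trans ?_ h6
  have h8 : Real.log 4 = 2 * Real.log 2 := by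
    rw [show (4 : ℝ) = 2 ^ 2 by norm_num, Real.log_pow]
    norm_num
  have h9 := Real.log_two_gt_d9
  rw [h8] at h4
  push_cast at h2 h3 h4
  nlinarith

/-- the partial product is much smaller than the limit -/
theorem core {d z w m : ℕ} (hd : d ≠ 0) (hw : 4 ≤ w) (hzw : z ≤ w)
    (h1 : ∀ p ∈ (Ico z w).filter Nat.Prime, p ∣ d) (C : Finset ℕ)
    (hC : C ⊆ (Ico w (21 * w)).filter Nat.Prime) (hCd : ∀ p ∈ C, p ∣ d) (hm : C.card = m) :
    Sz {0, d} z * ((1 + m / (21 * w)) * (1 - 8 / w)) ≤ SS {0, d} := by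
  classical
  have hw0 : (4 : ℝ) ≤ w := by exact_mod_cast hw
  have hwp : (0 : ℝ) < w := by linarith
  refine ge_of_tendsto (Sz_tendsto {0, d}) ?_
  filter_upwards [eventually_ge_atTop (21 * w)] with W hW
  rw [Sz_split {0, d} (show w ≤ W by omega), Sz_split {0, d} hzw, mul_assoc]
  refine mul_le_mul_of_nonneg_left ?_ (Sz_nonneg _ _)
  have a1 : 1 ≤ ∏ p ∈ (Ico z w).filter Nat.Prime, loc {0, d} p := by
    have : ∏ p ∈ (Ico z w).filter Nat.Prime, (1 : ℝ) ≤ ∏ p ∈ (Ico z w).filter Nat.Prime, loc {0, d} p := by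
      refine prod_le_prod (fun _ _ => zero_le_one) (fun p hp => ?_)
      have hpp := (mem_filter.1 hp).2
      obtain ⟨t0, t1⟩ := inv_prime hpp
      rw [loc_div hd hpp (h1 p hp), le_div_iff₀ (by linarith)]
      linarith
    simpa using this
  set P := (Ico w W).filter Nat.Prime with hP
  have hCP : C ⊆ P := by
    intro p hp
    have := hC hp
    rw [mem_filter, mem_Ico] at this
    rw [hP, mem_filter, mem_Ico]
    exact ⟨⟨this.1.1, by omega⟩, this.2⟩
  have a2 : ∏ p ∈ P, ((1 - 4 / (p : ℝ) ^ 2) * (if p ∈ C then (1 + 1 / (21 * (w : ℝ))) else 1)) ≤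
      ∏ p ∈ P, loc {0, d} p := by
    refine prod_le_prod (fun p hp => ?_) (fun p hp => ?_)
    · rw [hP, mem_filter, mem_Ico] at hp
      have e1 : (4 : ℝ) ≤ p := by
        have : 4 ≤ p := by omega
        exact_mod_cast this
      apply mul_nonneg
      · rw [sub_nonneg, div_le_one (by positivity)]
        nlinarith
      · split_ifs
        · positivity
        · norm_num
    · have hp' := hp
      rw [hP, mem_filter, mem_Ico] at hp'
      have e1 : (4 : ℝ) ≤ p := by
        have : 4 ≤ p := by omega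
        exact_mod_cast this
      have e2 : 0 ≤ 4 / (p : ℝ) ^ 2 := by positivity
      split_ifs with h3
      · have h4 := hC h3
        rw [mem_filter, mem_Ico] at h4
        have h5 : (p : ℝ) ≤ 21 * w := by exact_mod_cast h4.1.2.le
        rw [loc_div hd hp'.2 (hCd p h3)]
        have h6 : 1 / (21 * (w : ℝ)) ≤ 1 / p := one_div_le_one_div_of_le (by linarith) h5
        obtain ⟨t0, t1⟩ := inv_prime hp'.2
        have h7 : 1 + 1 / (p : ℝ) ≤ 1 / (1 - 1 / (p : ℝ)) := by
          rw [le_div_iff₀ (by linarith)]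
          nlinarith
        refine le_trans ?_ h7
        have h8 : 0 ≤ 1 / (21 * (w : ℝ)) := by positivity
        nlinarith
      · rw [mul_one]
        have h4 := loc_lower (D := {0, d}) hp'.2 (by rw [card_pair' hd]; omega)
        rw [card_pair' hd] at h4
        norm_num at h4
        linarith
  rw [prod_mul_distrib] at a2
  have a3 : 1 - 8 / (w : ℝ) ≤ ∏ p ∈ P, (1 - 4 / (p : ℝ) ^ 2) := by
    refine le_trans ?_ (prod_ge _ (fun p : ℕ => 4 / (p : ℝ) ^ 2) (fun p _ => by positivity) (fun p hp => ?_)).1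
    · have e2 : ∑ p ∈ P, 4 / (p : ℝ) ^ 2 ≤ ∑ p ∈ Ioo (w - 1) W, 4 / (p : ℝ) ^ 2 := by
        refine sum_le_sum_of_subset_of_nonneg (fun p hp => ?_) (fun _ _ _ => by positivity)
        rw [hP, mem_filter, mem_Ico] at hp
        rw [mem_Ioo]
        omega
      have e3 := sum_Ioo_inv_sq_le (α := ℝ) (w - 1) W
      have e4 : (((w - 1 : ℕ) : ℝ)) + 1 = w := by
        rw [Nat.cast_sub (by omega)]
        push_cast
        ring
      rw [e4] at e3
      have e5 : ∑ p ∈ Ioo (w - 1) W, 4 / (p : ℝ) ^ 2 = 4 * ∑ i ∈ Ioo (w - 1) W, ((i : ℝ) ^ 2)⁻¹ := by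
        rw [mul_sum]
        exact sum_congr rfl (fun i _ => by rw [div_eq_mul_inv])
      rw [e5] at e2
      have e6 : 4 * (2 / (w : ℝ)) = 8 / w := by ring
      linarith
    · rw [hP, mem_filter, mem_Ico] at hp
      have e1 : (4 : ℝ) ≤ p := by
        have : 4 ≤ p := by omega
        exact_mod_cast this
      rw [div_le_one (by positivity)]
      nlinarith
  have a4 : 1 + m / (21 * (w : ℝ)) ≤ ∏ p ∈ P, (if p ∈ C then (1 + 1 / (21 * (w : ℝ))) else 1) := by
    rw [← prod_filter, filter_mem_eq_inter, inter_eq_right.2 hCP, prod_const, hm]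
    have := one_add_mul_le_pow (a := 1 / (21 * (w : ℝ))) (by
      have : 0 ≤ 1 / (21 * (w : ℝ)) := by positivity
      linarith) m
    refine le_trans (le_of_eq ?_) this
    ring
  have a5 : 0 ≤ ∏ p ∈ P, (1 - 4 / (p : ℝ) ^ 2) := prod_nonneg (fun p hp => by
    rw [hP, mem_filter, mem_Ico] at hp
    have e1 : (4 : ℝ) ≤ p := by
      have : 4 ≤ p := by omega
      exact_mod_cast this
    rw [sub_nonneg, div_le_one (by positivity)]
    nlinarith)
  have a6 : (1 + m / (21 * (w : ℝ))) * (1 - 8 / w) ≤ ∏ p ∈ P, loc {0, d} p := by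
    refine le_trans ?_ a2
    have b1 : (0 : ℝ) ≤ 1 + m / (21 * (w : ℝ)) := by positivity
    calc (1 + m / (21 * (w : ℝ))) * (1 - 8 / w) ≤ (1 + m / (21 * (w : ℝ))) * ∏ p ∈ P, (1 - 4 / (p : ℝ) ^ 2) :=
          mul_le_mul_of_nonneg_left a3 b1
      _ ≤ (∏ p ∈ P, (if p ∈ C then (1 + 1 / (21 * (w : ℝ))) else 1)) * ∏ p ∈ P, (1 - 4 / (p : ℝ) ^ 2) :=
          mul_le_mul_of_nonneg_right a4 a5
      _ = _ := mul_comm _ _
  have a7 : 0 ≤ ∏ p ∈ P, loc {0, d} p := prod_nonneg (fun p hp => by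
    rw [hP, mem_filter] at hp
    exact loc_nonneg _ hp.2)
  calc _ ≤ ∏ p ∈ P, loc {0, d} p := a6
    _ = 1 * ∏ p ∈ P, loc {0, d} p := (one_mul _).symm
    _ ≤ _ := mul_le_mul_of_nonneg_right a1 a7

theorem pick {B L : ℝ} {z y w m : ℕ} (hw : w = max z y) (hy3 : 3 ≤ y) (hw4 : 4 ≤ w)
    (hyB : (y : ℝ) ≤ B / 6 * L) (hBy : B / 12 * L ≤ y) (hch : 6 * (w : ℝ) ≤
      (((Ico w (21 * w)).filter Nat.Prime).card : ℝ) * Real.log (21 * w))
    (hm : (m : ℝ) * Real.log (21 * w) ≤ B / 2 * L) (hm2 : 672 ≤ m) :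
    ∃ d : ℕ, Even d ∧ 2 ≤ d ∧ Real.log d ≤ 3 / 4 * (B * L) ∧
      Sz {0, d} z ≤ (1 - m / (84 * w)) * SS {0, d} := by
  classical
  have hzw : z ≤ w := by rw [hw]; exact le_max_left _ _
  have hyw : y ≤ w := by rw [hw]; exact le_max_right _ _
  have hw0 : (4 : ℝ) ≤ w := by exact_mod_cast hw4
  have hyw' : (y : ℝ) ≤ w := by exact_mod_cast hyw
  have hy0 : (3 : ℝ) ≤ y := by exact_mod_cast hy3
  have hl1 : 1 ≤ Real.log (21 * w) := by
    rw [Real.le_log_iff_exp_le (by linarith)]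
    have := Real.exp_one_lt_d9
    linarith
  have hl0 : 0 < Real.log (21 * w) := by linarith
  have hmc : m ≤ ((Ico w (21 * w)).filter Nat.Prime).card := by
    have h1 : (m : ℝ) * Real.log (21 * w) ≤
        (((Ico w (21 * w)).filter Nat.Prime).card : ℝ) * Real.log (21 * w) := by linarith
    have h2 := le_of_mul_le_mul_right h1 hl0
    exact_mod_cast h2
  obtain ⟨C, hC, hCm⟩ := exists_subset_card_eq hmc
  have hCp : ∀ p ∈ C, (w ≤ p ∧ p < 21 * w) ∧ p.Prime := by
    intro p hp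
    have := hC hp
    rw [mem_filter, mem_Ico] at this
    exact this
  obtain ⟨d, hd⟩ : ∃ d, d = PQ y * ∏ p ∈ C, p := ⟨_, rfl⟩
  have hC0 : 0 < ∏ p ∈ C, p := prod_pos (fun p hp => (hCp p hp).2.pos)
  have hd0 : d ≠ 0 := by
    rw [hd]
    exact (Nat.mul_pos (PQ_pos y) hC0).ne'
  have h2d : 2 ∣ d := by
    rw [hd]
    refine Dvd.dvd.mul_right ?_ _
    unfold PQ
    exact dvd_prod_of_mem _ (mem_filter.2 ⟨mem_range.2 (by omega), Nat.prime_two⟩)
  refine ⟨d, even_iff_two_dvd.2 h2d, Nat.le_of_dvd (Nat.pos_of_ne_zero hd0) h2d, ?_, ?_⟩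
  · have e1 : (d : ℝ) = (PQ y : ℝ) * ((∏ p ∈ C, p : ℕ) : ℝ) := by rw [hd]; push_cast; ring
    have e2 : (0 : ℝ) < (PQ y : ℝ) := by exact_mod_cast PQ_pos y
    have e3 : (0 : ℝ) < ((∏ p ∈ C, p : ℕ) : ℝ) := by exact_mod_cast hC0
    rw [e1, Real.log_mul e2.ne' e3.ne']
    have e4 : Real.log (PQ y : ℝ) ≤ y * Real.log 4 := by
      rw [← Real.log_pow]
      apply Real.log_le_log e2
      exact_mod_cast PQ_le y
    have e5 : Real.log ((∏ p ∈ C, p : ℕ) : ℝ) ≤ m * Real.log (21 * w) := by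
      rw [← Real.log_pow]
      apply Real.log_le_log e3
      rw [← hCm, ← prod_const]
      push_cast
      refine prod_le_prod (fun p _ => by positivity) (fun p hp => ?_)
      exact_mod_cast (hCp p hp).1.2.le
    have e6 : Real.log 4 ≤ 3 / 2 := by
      rw [show (4 : ℝ) = 2 ^ 2 by norm_num, Real.log_pow]
      have := Real.log_two_lt_d9
      push_cast
      linarith
    nlinarith
  · have h1 : ∀ p ∈ (Ico z w).filter Nat.Prime, p ∣ d := by
      intro p hp
      rw [mem_filter, mem_Ico] at hp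
      have : w = y := by
        rcases le_total z y with h | h
        · rw [hw, max_eq_right h]
        · rw [max_eq_left h] at hw
          omega
      rw [hd]
      refine Dvd.dvd.mul_right ?_ _
      unfold PQ
      exact dvd_prod_of_mem (fun p => p) (mem_filter.2 ⟨mem_range.2 (by omega), hp.2⟩)
    have h2 : ∀ p ∈ C, p ∣ d := by
      intro p hp
      rw [hd]
      exact Dvd.dvd.mul_left (dvd_prod_of_mem (fun p => p) hp) _
    have h3 := core hd0 hw4 hzw h1 C hC h2 hCm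
    obtain ⟨t, ht⟩ : ∃ t : ℝ, t = m / (21 * w) := ⟨_, rfl⟩
    have hwp : (0 : ℝ) < w := by linarith
    have ht0 : 0 ≤ t := by rw [ht]; positivity
    have ht1 : t ≤ 1 := by
      rw [ht, div_le_one (by positivity)]
      have : (m : ℝ) ≤ m * Real.log (21 * w) := le_mul_of_one_le_right (Nat.cast_nonneg _) hl1
      linarith
    have h4 : 16 / (w : ℝ) ≤ t / 2 := by
      rw [ht, div_div, div_le_div_iff₀ hwp (by positivity)]
      have : (672 : ℝ) ≤ m := by exact_mod_cast hm2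
      nlinarith
    have h5 : 1 + t / 2 ≤ (1 + t) * (1 - 8 / w) := by
      have e1 : 8 / (w : ℝ) = (16 / w) / 2 := by ring
      have e2 : 0 ≤ 16 / (w : ℝ) := by positivity
      rw [e1]
      nlinarith
    rw [← ht] at h3
    have h6 : Sz {0, d} z * (1 + t / 2) ≤ SS {0, d} :=
      le_trans (mul_le_mul_of_nonneg_left h5 (Sz_nonneg _ _)) h3
    have h7 : (m : ℝ) / (84 * w) = t / 4 := by
      rw [ht]
      field_simp
      norm_num
    rw [h7]
    have h8 : 1 ≤ (1 - t / 4) * (1 + t / 2) := by nlinarith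
    have h9 := Sz_nonneg {0, d} z
    calc Sz {0, d} z = Sz {0, d} z * 1 := (mul_one _).symm
      _ ≤ Sz {0, d} z * ((1 - t / 4) * (1 + t / 2)) := mul_le_mul_of_nonneg_left h8 h9
      _ = (1 - t / 4) * (Sz {0, d} z * (1 + t / 2)) := by ring
      _ ≤ (1 - t / 4) * SS {0, d} := mul_le_mul_of_nonneg_left h6 (by linarith)

end Pool.Agent.Q190.PD
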