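import Pool.Agent.Q216.PD.Stm
import Pool.Agent.Y34.EL.All

/-! Project PD (helper216), job REC: elements close to the identity on a ball of the first factor, without fixed points
in the second factor. -/

set_option autoImplicit false

universe u v

open Metric Set Filter Topology
open Pool.Agent.TH60.FP Pool.Agent.Y34.HB Pool.Agent.Y34.EL Pool.Agent.Q216.PD

namespace Pool.Agent.Q190.PD

theorem lim_exists {X : Type u} [MetricSpace X] [ProperSpace X] (w : ℕ → X) (k : X) (D : ℝ)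
    (h : ∀ n, dist (w n) k ≤ D) : ∃ x, Tendsto w (hyperfilter ℕ : Filter ℕ) (𝓝 x) := by
  have hc : IsCompact (closedBall k D) := isCompact_closedBall _ _
  obtain ⟨x, -, hx⟩ := hc.ultrafilter_le_nhds ((hyperfilter ℕ).map w) (by
    rw [le_principal_iff]
    show w ⁻¹' (closedBall k D) ∈ hyperfilter ℕ
    exact mem_of_superset univ_mem fun n _ => h n)
  exact ⟨x, hx⟩

theorem near_of_lim {X : Type u} [MetricSpace X] {w : ℕ → X} {x : X}
    (h : Tendsto w (hyperfilter ℕ : Filter ℕ) (𝓝 x)) {e : ℝ} (he : 0 < e) :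
    ∀ᶠ n in (hyperfilter ℕ : Filter ℕ), dist (w n) x ≤ e := by
  filter_upwards [h (closedBall_mem_nhds x he)] with n hn using hn

/-- JOB REC -/
theorem t_rec (h1 : S_ORD.{u, v}) (h2 : S_TOR.{u, v}) : S_REC.{u, v} := by
  intro X₁ X₂ _ _ G _ _ _ hP hunb hne x₁ B ε hε
  obtain ⟨o⟩ := hne
  have i1 := hP.proper₁
  have i2 := hP.proper₂
  have i3 := hP.isom₁
  have i4 := hP.isom₂
  obtain ⟨ε₀, N, hε₀, hN, hord⟩ := h1 (Pr X₁ X₂) G hP.geo
  obtain ⟨K, hK, hKc⟩ := hP.geo.cc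
  -- the ray
  choose p hp using fun n : ℕ => hunb o (n : ℝ)
  obtain ⟨ρ, hρ, _⟩ := t_lray X₂ hP.cn₂ o p (by
    refine Tendsto.mono_left (tendsto_atTop_mono hp tendsto_natCast_atTop_atTop) ?_
    exact Nat.hyperfilter_le_atTop)
  -- the elements
  choose g hg using fun m : ℕ => hKc ⟨x₁, ρ m⟩
  obtain ⟨D, hD⟩ := hK.isBounded.subset_closedBall (⟨x₁, o⟩ : Pr X₁ X₂)
  have hg1 : ∀ m, dist (g m • x₁) x₁ ≤ D := fun m =>
    (fst_le (g m • (⟨x₁, ρ m⟩ : Pr X₁ X₂)) ⟨x₁, o⟩).trans (hD (hg m))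
  have hg2 : ∀ m : ℕ, dist (g m • ρ m) o ≤ D := fun m =>
    (snd_le (g m • (⟨x₁, ρ m⟩ : Pr X₁ X₂)) ⟨x₁, o⟩).trans (hD (hg m))
  set R : ℕ := 4 * N + 5 with hR
  have hlim1 : ∀ x : X₁, ∃ y, Tendsto (fun m => g m • x) (hyperfilter ℕ : Filter ℕ) (𝓝 y) := by
    intro x
    refine lim_exists _ x₁ (dist x x₁ + D) fun m => ?_
    have h3 := dist_triangle (g m • x) (g m • x₁) x₁
    rw [dist_smul] at h3
    linarith [hg1 m]
  choose ℓ hℓ using hlim1
  obtain ⟨y0, hy0⟩ := lim_exists (fun m : ℕ => g m • ρ m) o D hg2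
  obtain ⟨y1, hy1⟩ := lim_exists (fun m : ℕ => g m • ρ (m + R)) o (R + D) (by
    intro m
    have h3 := dist_triangle (g m • ρ (m + R)) (g m • ρ m) o
    rw [dist_smul, hρ.2 (m + R) m (by positivity) (by positivity), add_sub_cancel_left,
      abs_of_nonneg (by positivity)] at h3
    linarith [hg2 m])
  -- the net
  set ε' : ℝ := min ε (ε₀ / 2) with hε'
  have hε'0 : 0 < ε' := lt_min hε (by positivity)
  obtain ⟨S, _, hSf, hS⟩ := (isCompact_closedBall x₁ B).finite_cover_balls (e := ε' / 6) (by positivity)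
  have hev : ∀ᶠ m in (hyperfilter ℕ : Filter ℕ), (∀ s ∈ insert x₁ S, dist (g m • s) (ℓ s) ≤ ε' / 6) ∧
      dist (g m • ρ m) y0 ≤ 1 / 4 ∧ dist (g m • ρ (m + R)) y1 ≤ 1 / 4 := by
    refine (((hSf.insert x₁).eventually_all).2 fun s _ => near_of_lim (hℓ s) (by positivity)).and
      ((near_of_lim hy0 (by norm_num)).and (near_of_lim hy1 (by norm_num)))
  obtain ⟨n, hn1, hn2, hn3⟩ := hev.exists
  obtain ⟨m, ⟨hm1, hm2, hm3⟩, hmn⟩ := (hev.and ((eventually_ge_atTop (n + R)).filter_mono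
    Nat.hyperfilter_le_atTop)).exists
  have hs : ∀ s ∈ insert x₁ S, dist (g n • s) (g m • s) ≤ ε' / 3 := by
    intro s hsS
    have h3 := dist_triangle_right (g n • s) (g m • s) (ℓ s)
    linarith [hn1 s hsS, hm1 s hsS]
  have hdm : ∀ {X : Type u} [MetricSpace X] [MulAction G X] [IsIsometricSMul G X] (x y : X),
      dist x ((((g n)⁻¹ * g m) : G) • y) = dist (g n • x) (g m • y) := by
    intro X _ _ _ x y
    rw [← dist_smul (g n) x, mul_smul, smul_inv_smul]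
  have hfix1 : dist x₁ (((g n)⁻¹ * g m) • x₁) < ε₀ := by
    rw [hdm]
    have h3 := hs x₁ (mem_insert _ _)
    have h4 : ε' ≤ ε₀ / 2 := min_le_right _ _
    linarith
  refine ⟨(g n)⁻¹ * g m, ?_, ?_⟩
  · intro x hx
    obtain ⟨s, hsS, hxs⟩ := mem_iUnion₂.1 (hS hx)
    rw [mem_ball] at hxs
    rw [hdm]
    have h3 := dist_triangle4 (g n • x) (g n • s) (g m • s) (g m • x)
    rw [dist_smul, dist_smul (g m), dist_comm s x] at h3
    have h4 := hs s (mem_insert_of_mem _ hsS)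
    have h5 : ε' ≤ ε := min_le_left _ _
    linarith
  · intro z hz
    have h3 : dist (⟨x₁, z⟩ : Pr X₁ X₂) (((g n)⁻¹ * g m) • (⟨x₁, z⟩ : Pr X₁ X₂)) < ε₀ := by
      have h4 := le_add (⟨x₁, z⟩ : Pr X₁ X₂) (((g n)⁻¹ * g m) • (⟨x₁, z⟩ : Pr X₁ X₂))
      rw [smul_fst, smul_snd] at h4
      simp only at h4
      rw [hz, dist_self] at h4
      linarith
    have h4 := hord _ _ h3
    have hcast : (((n + R : ℕ) : ℝ)) ≤ m := by exact_mod_cast hmn
    push_cast [hR] at hcast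
    refine h2 X₂ G hP.cn₂ o ρ hρ ((g n)⁻¹ * g m) N hN (fun x => by rw [h4, one_smul]) n m (by positivity)
      (by linarith) ?_ ?_
    · rw [dist_comm, hdm]
      have h5 := dist_triangle_right (g n • ρ n) (g m • ρ m) y0
      linarith
    · rw [dist_comm, hdm]
      push_cast [hR] at hn3 hm3
      have h5 := dist_triangle_right (g n • ρ (n + (4 * N + 5))) (g m • ρ (m + (4 * N + 5))) y1
      linarith

end Pool.Agent.Q190.PD
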