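import Pool.Agent.Q216.PD.Stm
import Pool.Agent.Y34.EL.All
import Pool.Agent.TH60.FP.Cen

/-! Project PD (helper216), job TOR: isometries of finite order do not move rays far along themselves. -/

set_option autoImplicit false

universe u v

open Metric Set Filter Topology
open Pool.Agent.TH60.FP Pool.Agent.Y34.HB Pool.Agent.Y34.EL Pool.Agent.Q216.PD

namespace Pool.Agent.Q190.PD

theorem disp_zpow {X : Type u} [MetricSpace X] {G : Type v} [Group G] [MulAction G X] [IsIsometricSMul G X]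
    (g : G) (N : ℕ) (hN : 0 < N) (hgN : ∀ x : X, g ^ N • x = x) (x : X) (k : ℤ) :
    dist x (g ^ k • x) ≤ N * dist x (g • x) := by
  have hpow : ∀ j : ℕ, dist x (g ^ j • x) ≤ j * dist x (g • x) := by
    intro j
    induction j with
    | zero => simp
    | succ j ih =>
      have h1 := dist_triangle x (g ^ j • x) (g ^ (j + 1) • x)
      rw [pow_succ, mul_smul, dist_smul] at h1
      rw [pow_succ, mul_smul]
      push_cast
      linarith
  have hk : g ^ k • x = g ^ (k % N).toNat • x := by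
    have h2 : (0 : ℤ) ≤ k % N := Int.emod_nonneg _ (by omega)
    have h3 : g ^ k = g ^ (k % N).toNat * (g ^ N) ^ (k / N) := by
      rw [← zpow_natCast g (k % N).toNat, ← zpow_natCast g N, ← zpow_mul, ← zpow_add, Int.toNat_of_nonneg h2,
        Int.emod_add_mul_ediv]
    have h4 : (g ^ N) ^ (k / N) ∈ MulAction.stabilizer G x :=
      Subgroup.zpow_mem _ (MulAction.mem_stabilizer_iff.2 (hgN x)) _
    rw [h3, mul_smul, MulAction.mem_stabilizer_iff.1 h4]
  rw [hk]
  refine (hpow _).trans (mul_le_mul_of_nonneg_right ?_ dist_nonneg)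
  have h5 : k % N < N := Int.emod_lt_of_pos _ (by omega)
  have h6 : (k % N).toNat ≤ N := by omega
  exact_mod_cast h6

/-- JOB TOR -/
theorem t_tor : S_TOR.{u, v} := by
  intro X _ _ G _ _ _ hCN o ρ hρ g N hN hgN n m hn hnm h1 h2
  obtain ⟨_, _, hst⟩ := t_stew X hCN
  set R : ℝ := 4 * N + 5 with hR
  have hNR : (1 : ℝ) ≤ N := by exact_mod_cast hN
  have hm0 : 0 ≤ m := by linarith
  have hd : ∀ s t : ℝ, 0 ≤ s → s ≤ t → dist (ρ s) (ρ t) = t - s := by
    intro s t hs hst
    rw [hρ.2 s t hs (hs.trans hst), abs_sub_comm, abs_of_nonneg (by linarith)]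
  have hl : dist (ρ m) (g • ρ m) ≤ m - n + 1 / 2 := by
    have h3 := dist_triangle (ρ m) (ρ n) (g • ρ m)
    have h4 := hd n m hn (by linarith)
    rw [dist_comm (ρ m) (ρ n), dist_comm (ρ n) (g • ρ m)] at h3
    linarith
  obtain ⟨c, _, hc1, hc2⟩ := t_cen X (fun _ => True) dist (Subgroup.zpowers g) (fun _ _ _ => trivial)
    (fun _ _ _ _ => dist_nonneg) (fun _ _ _ _ => dist_comm _ _) (fun _ _ _ _ _ _ => dist_triangle _ _ _)
    (fun a x y _ _ => dist_smul (a : G) x y)
    (fun x y _ _ => by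
      obtain ⟨q, hq⟩ := hCN x y
      exact ⟨q, trivial, fun z _ => hq z⟩)
    (ρ m) (N * (m - n + 1 / 2)) (1 / 4) trivial (by norm_num) (by
      rintro ⟨a, k, rfl⟩
      exact (disp_zpow g N hN hgN (ρ m) k).trans (mul_le_mul_of_nonneg_left hl (by positivity)))
  have hc3 : dist c (g • c) ≤ 1 / 4 := hc1 ⟨g, Subgroup.mem_zpowers g⟩
  have hcmp : ∀ x y : X, dist (g • x) y ≤ 1 / 2 → |dist c x - dist c y| ≤ 3 / 4 := by
    intro x y hxy
    have e1 : dist c x = dist (g • c) (g • x) := (dist_smul g c x).symm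
    have h3 := dist_triangle4 (g • c) c y (g • x)
    have h4 := dist_triangle4 c (g • c) (g • x) y
    rw [dist_comm (g • c) c, dist_comm y (g • x)] at h3
    rw [abs_le, e1]
    constructor <;> linarith
  have h3 := abs_le.1 (hcmp _ _ h1)
  have h4 := abs_le.1 (hcmp _ _ h2)
  -- Stewart
  have hL : dist (ρ n) (ρ (m + R)) = m + R - n := hd n (m + R) hn (by linarith)
  have hS1 := hst (ρ n) (ρ (m + R)) R (ρ (n + R)) ⟨by rw [hd n (n + R) hn (by linarith)]; ring, by
    rw [hL, hd (n + R) (m + R) (by linarith) (by linarith)]; ring⟩ c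
  have hS2 := hst (ρ n) (ρ (m + R)) (m - n) (ρ m) ⟨by rw [hd n m hn (by linarith)], by
    rw [hL, hd m (m + R) (by linarith) (by linarith)]; ring⟩ c
  rw [hL] at hS1 hS2
  have hF : dist c (ρ (m + R)) ≤ dist c (ρ m) + R := by
    have h5 := dist_triangle c (ρ m) (ρ (m + R))
    have h6 := hd m (m + R) hm0 (by linarith)
    linarith
  generalize ha : dist c (ρ m) = a at *
  generalize hb : dist c (ρ n) = b at *
  generalize he : dist c (ρ (n + R)) = e at *
  generalize hf : dist c (ρ (m + R)) = f at *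
  have hb0 : 0 ≤ b := hb ▸ dist_nonneg
  have he0 : 0 ≤ e := he ▸ dist_nonneg
  have hf0 : 0 ≤ f := hf ▸ dist_nonneg
  have ha0 : 0 ≤ a := ha ▸ dist_nonneg
  have hM : 0 < m + R - n := by linarith
  have key : (m + R - n) * (e ^ 2 + a ^ 2) ≤ (m + R - n) * (b ^ 2 + f ^ 2 - 2 * (m - n) * R) := by
    nlinarith
  have key2 := le_of_mul_le_mul_left key hM
  have k3 : f ^ 2 - e ^ 2 ≤ 3 / 4 * (f + e) := by
    have : f ^ 2 - e ^ 2 = (f - e) * (f + e) := by ring
    rw [this]
    exact mul_le_mul_of_nonneg_right h4.2 (by linarith)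
  have k4 : b ^ 2 - a ^ 2 ≤ 3 / 4 * (b + a) := by
    have : b ^ 2 - a ^ 2 = (b - a) * (b + a) := by ring
    rw [this]
    exact mul_le_mul_of_nonneg_right (by linarith [h3.1]) (by linarith)
  nlinarith

end Pool.Agent.Q190.PD
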